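import Mathlib

namespace Pool.Agent.MP_75988d_co.H57

def code (a1 b1 a2 b2 a3 b3 a4 b4 a5 b5 a6 b6 a7 b7 : ℕ) : ℕ := Nat.add (Nat.mul (Nat.add (Nat.mul (Nat.add (Nat.mul (Nat.add (Nat.mul (Nat.add (Nat.mul (Nat.add (Nat.mul (a7) 16) a6) 16) a5) 16) a4) 16) a3) 16) a2) 16) a1

def hs (a1 b1 a2 b2 a3 b3 a4 b4 a5 b5 a6 b6 a7 b7 : ℕ) : ℕ := Nat.mod (code a1 b1 a2 b2 a3 b3 a4 b4 a5 b5 a6 b6 a7 b7) 524287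

def bl (k : ℕ) : ℕ → ℕ → ℕ → ℕ → ℕ → ℕ → ℕ → ℕ → ℕ → ℕ → ℕ → ℕ → ℕ → ℕ → ℕ :=
  Nat.rec (motive := fun _ => ℕ → ℕ → ℕ → ℕ → ℕ → ℕ → ℕ → ℕ → ℕ → ℕ → ℕ → ℕ → ℕ → ℕ → ℕ)
    (fun a1 b1 a2 b2 a3 b3 a4 b4 a5 b5 a6 b6 a7 b7 => Nat.shiftLeft 1 (hs a1 b1 a2 b2 a3 b3 a4 b4 a5 b5 a6 b6 a7 b7))
    (fun _ ih a1 b1 a2 b2 a3 b3 a4 b4 a5 b5 a6 b6 a7 b7 =>
      Nat.lor (ih b1 a1 a2 b2 a3 b3 a4 b4 a5 b5 a6 b6 a7 b7)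
      (Nat.lor (ih b2 a2 b1 a1 a3 b3 a4 b4 a5 b5 a6 b6 a7 b7)
      (Nat.lor (ih b3 a3 b2 a2 b1 a1 a4 b4 a5 b5 a6 b6 a7 b7)
      (Nat.lor (ih b4 a4 b3 a3 b2 a2 b1 a1 a5 b5 a6 b6 a7 b7)
      (Nat.lor (ih b5 a5 b4 a4 b3 a3 b2 a2 b1 a1 a6 b6 a7 b7)
      (Nat.lor (ih b6 a6 b5 a5 b4 a4 b3 a3 b2 a2 b1 a1 a7 b7)
      (Nat.lor (ih b7 a7 b6 a6 b5 a5 b4 a4 b3 a3 b2 a2 b1 a1)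
      (Nat.lor (ih a1 b1 b2 a2 a3 b3 a4 b4 a5 b5 a6 b6 a7 b7)
      (Nat.lor (ih a1 b1 b3 a3 b2 a2 a4 b4 a5 b5 a6 b6 a7 b7)
      (Nat.lor (ih a1 b1 b4 a4 b3 a3 b2 a2 a5 b5 a6 b6 a7 b7)
      (Nat.lor (ih a1 b1 b5 a5 b4 a4 b3 a3 b2 a2 a6 b6 a7 b7)
      (Nat.lor (ih a1 b1 b6 a6 b5 a5 b4 a4 b3 a3 b2 a2 a7 b7)
      (Nat.lor (ih a1 b1 b7 a7 b6 a6 b5 a5 b4 a4 b3 a3 b2 a2)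
      (Nat.lor (ih a1 b1 a2 b2 b3 a3 a4 b4 a5 b5 a6 b6 a7 b7)
      (Nat.lor (ih a1 b1 a2 b2 b4 a4 b3 a3 a5 b5 a6 b6 a7 b7)
      (Nat.lor (ih a1 b1 a2 b2 b5 a5 b4 a4 b3 a3 a6 b6 a7 b7)
      (Nat.lor (ih a1 b1 a2 b2 b6 a6 b5 a5 b4 a4 b3 a3 a7 b7)
      (Nat.lor (ih a1 b1 a2 b2 b7 a7 b6 a6 b5 a5 b4 a4 b3 a3)
      (Nat.lor (ih a1 b1 a2 b2 a3 b3 b4 a4 a5 b5 a6 b6 a7 b7)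
      (Nat.lor (ih a1 b1 a2 b2 a3 b3 b5 a5 b4 a4 a6 b6 a7 b7)
      (Nat.lor (ih a1 b1 a2 b2 a3 b3 b6 a6 b5 a5 b4 a4 a7 b7)
      (Nat.lor (ih a1 b1 a2 b2 a3 b3 b7 a7 b6 a6 b5 a5 b4 a4)
      (Nat.lor (ih a1 b1 a2 b2 a3 b3 a4 b4 b5 a5 a6 b6 a7 b7)
      (Nat.lor (ih a1 b1 a2 b2 a3 b3 a4 b4 b6 a6 b5 a5 a7 b7)
      (Nat.lor (ih a1 b1 a2 b2 a3 b3 a4 b4 b7 a7 b6 a6 b5 a5)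
      (Nat.lor (ih a1 b1 a2 b2 a3 b3 a4 b4 a5 b5 b6 a6 a7 b7)
      (Nat.lor (ih a1 b1 a2 b2 a3 b3 a4 b4 a5 b5 b7 a7 b6 a6)
      (ih a1 b1 a2 b2 a3 b3 a4 b4 a5 b5 a6 b6 b7 a7)))))))))))))))))))))))))))) k

def tb (b i : ℕ) : Bool := Nat.beq (Nat.land (Nat.shiftRight b i) 1) 1

def test (c1 c2 c3 k h : ℕ) : Bool :=
  Nat.rec (motive := fun _ => Bool) (tb c1 h) (fun k1 _ =>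
    Nat.rec (motive := fun _ => Bool) (tb c2 h) (fun k2 _ =>
      Nat.rec (motive := fun _ => Bool) (tb c3 h) (fun _ _ => true) k2) k1) k

def chk (c0 c1 c2 c3 : ℕ) (ok : List (ℕ × ℕ) → Bool) (k : ℕ) : List (ℕ × ℕ) → ℕ → ℕ → ℕ → ℕ → ℕ → ℕ → ℕ → ℕ → ℕ → ℕ → ℕ → ℕ → ℕ → ℕ → Bool :=
  Nat.rec (motive := fun _ => List (ℕ × ℕ) → ℕ → ℕ → ℕ → ℕ → ℕ → ℕ → ℕ → ℕ → ℕ → ℕ → ℕ → ℕ → ℕ → ℕ → Bool)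
    (fun pre a1 b1 a2 b2 a3 b3 a4 b4 a5 b5 a6 b6 a7 b7 => or (not (Nat.beq (code a1 b1 a2 b2 a3 b3 a4 b4 a5 b5 a6 b6 a7 b7) c0)) (ok pre))
    (fun k ih pre a1 b1 a2 b2 a3 b3 a4 b4 a5 b5 a6 b6 a7 b7 => or (not (test c1 c2 c3 k (hs a1 b1 a2 b2 a3 b3 a4 b4 a5 b5 a6 b6 a7 b7)))
      (and (ih ((1, 1) :: pre) b1 a1 a2 b2 a3 b3 a4 b4 a5 b5 a6 b6 a7 b7)
      (and (ih ((1, 2) :: pre) b2 a2 b1 a1 a3 b3 a4 b4 a5 b5 a6 b6 a7 b7)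
      (and (ih ((1, 3) :: pre) b3 a3 b2 a2 b1 a1 a4 b4 a5 b5 a6 b6 a7 b7)
      (and (ih ((1, 4) :: pre) b4 a4 b3 a3 b2 a2 b1 a1 a5 b5 a6 b6 a7 b7)
      (and (ih ((1, 5) :: pre) b5 a5 b4 a4 b3 a3 b2 a2 b1 a1 a6 b6 a7 b7)
      (and (ih ((1, 6) :: pre) b6 a6 b5 a5 b4 a4 b3 a3 b2 a2 b1 a1 a7 b7)
      (and (ih ((1, 7) :: pre) b7 a7 b6 a6 b5 a5 b4 a4 b3 a3 b2 a2 b1 a1)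
      (and (ih ((2, 2) :: pre) a1 b1 b2 a2 a3 b3 a4 b4 a5 b5 a6 b6 a7 b7)
      (and (ih ((2, 3) :: pre) a1 b1 b3 a3 b2 a2 a4 b4 a5 b5 a6 b6 a7 b7)
      (and (ih ((2, 4) :: pre) a1 b1 b4 a4 b3 a3 b2 a2 a5 b5 a6 b6 a7 b7)
      (and (ih ((2, 5) :: pre) a1 b1 b5 a5 b4 a4 b3 a3 b2 a2 a6 b6 a7 b7)
      (and (ih ((2, 6) :: pre) a1 b1 b6 a6 b5 a5 b4 a4 b3 a3 b2 a2 a7 b7)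
      (and (ih ((2, 7) :: pre) a1 b1 b7 a7 b6 a6 b5 a5 b4 a4 b3 a3 b2 a2)
      (and (ih ((3, 3) :: pre) a1 b1 a2 b2 b3 a3 a4 b4 a5 b5 a6 b6 a7 b7)
      (and (ih ((3, 4) :: pre) a1 b1 a2 b2 b4 a4 b3 a3 a5 b5 a6 b6 a7 b7)
      (and (ih ((3, 5) :: pre) a1 b1 a2 b2 b5 a5 b4 a4 b3 a3 a6 b6 a7 b7)
      (and (ih ((3, 6) :: pre) a1 b1 a2 b2 b6 a6 b5 a5 b4 a4 b3 a3 a7 b7)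
      (and (ih ((3, 7) :: pre) a1 b1 a2 b2 b7 a7 b6 a6 b5 a5 b4 a4 b3 a3)
      (and (ih ((4, 4) :: pre) a1 b1 a2 b2 a3 b3 b4 a4 a5 b5 a6 b6 a7 b7)
      (and (ih ((4, 5) :: pre) a1 b1 a2 b2 a3 b3 b5 a5 b4 a4 a6 b6 a7 b7)
      (and (ih ((4, 6) :: pre) a1 b1 a2 b2 a3 b3 b6 a6 b5 a5 b4 a4 a7 b7)
      (and (ih ((4, 7) :: pre) a1 b1 a2 b2 a3 b3 b7 a7 b6 a6 b5 a5 b4 a4)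
      (and (ih ((5, 5) :: pre) a1 b1 a2 b2 a3 b3 a4 b4 b5 a5 a6 b6 a7 b7)
      (and (ih ((5, 6) :: pre) a1 b1 a2 b2 a3 b3 a4 b4 b6 a6 b5 a5 a7 b7)
      (and (ih ((5, 7) :: pre) a1 b1 a2 b2 a3 b3 a4 b4 b7 a7 b6 a6 b5 a5)
      (and (ih ((6, 6) :: pre) a1 b1 a2 b2 a3 b3 a4 b4 a5 b5 b6 a6 a7 b7)
      (and (ih ((6, 7) :: pre) a1 b1 a2 b2 a3 b3 a4 b4 a5 b5 b7 a7 b6 a6)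
      (ih ((7, 7) :: pre) a1 b1 a2 b2 a3 b3 a4 b4 a5 b5 a6 b6 b7 a7))))))))))))))))))))))))))))) k

def fN {α : Type} (n : ℕ) (f : ℕ → α) : α :=
  Nat.rec (motive := fun _ => α) (f 0) (fun k _ => f (Nat.succ k)) n

theorem fN_eq {α : Type} (n : ℕ) (f : ℕ → α) : fN n f = f n := by cases n <;> rfl

end Pool.Agent.MP_75988d_co.H57
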